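import Mathlib

/-!
# Three-balls inequality with the Hadamard exponent

For complex-valued harmonic functions on the unit ball of `ℝⁿ` with supremum norm one, the
three-balls inequality `‖u‖_r ≤ K ‖u‖_ρ ^ β` with the Hadamard exponent `β = log r / log ρ`
holds with a finite constant `K = K(ρ, r, n)` when `n = 2`, and with no finite constant when
`n ≥ 3`.
-/

open InnerProductSpace Topology Laplacian Metric ComplexConjugate

namespace Pool.Agent.Results.MP_1096cc_an.HadamardDichotomy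

/-- The supremum of `|u|` over the open ball of radius `s` centred at `0` in `ℝⁿ`. -/
noncomputable def supNorm {n : ℕ} (u : EuclideanSpace ℝ (Fin n) → ℂ) (s : ℝ) : ℝ :=
  sSup ((fun x => ‖u x‖) '' ball 0 s)

/-- The class `H`: complex-valued functions, harmonic on the open unit ball of `ℝⁿ`, that are
bounded there with supremum of the modulus equal to `1`. -/
def classH (n : ℕ) : Set (EuclideanSpace ℝ (Fin n) → ℂ) :=
  {u | HarmonicOnNhd u (ball 0 1) ∧ BddAbove ((fun x => ‖u x‖) '' ball 0 1) ∧ supNorm u 1 = 1}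

/-- composition of a harmonic function with a linear isometry equivalence is harmonic -/
theorem harmonicAt_comp_isometry {E E' F : Type*} [NormedAddCommGroup E] [InnerProductSpace ℝ E]
    [FiniteDimensional ℝ E] [NormedAddCommGroup E'] [InnerProductSpace ℝ E']
    [FiniteDimensional ℝ E'] [NormedAddCommGroup F] [NormedSpace ℝ F]
    (e : E' ≃ₗᵢ[ℝ] E) {u : E → F} {z : E'} (h : HarmonicAt u (e z)) : HarmonicAt (u ∘ e) z := by
  have key : ∀ w : E', (Δ (u ∘ e)) w = (Δ u) (e w) := by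
    intro w
    rw [laplacian_eq_iteratedFDeriv_orthonormalBasis (u ∘ e) (stdOrthonormalBasis ℝ E'),
      laplacian_eq_iteratedFDeriv_orthonormalBasis u ((stdOrthonormalBasis ℝ E').map e)]
    refine Finset.sum_congr rfl fun i _ => ?_
    have h1 := e.toContinuousLinearEquiv.iteratedFDerivWithin_comp_right u (s := Set.univ)
      uniqueDiffOn_univ (x := w) (Set.mem_univ _) 2
    simp only [Set.preimage_univ, iteratedFDerivWithin_univ] at h1
    have h2 : (u ∘ e) = (u ∘ e.toContinuousLinearEquiv) := rfl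
    rw [h2, h1]
    simp only [ContinuousMultilinearMap.compContinuousLinearMap_apply]
    congr 1
    ext j
    fin_cases j <;> simp
  constructor
  · exact h.1.comp z e.toContinuousLinearEquiv.contDiff.contDiffAt
  · have h2 : ∀ᶠ y in 𝓝 (e z), (Δ u) y = 0 := h.2
    have h3 := e.continuous.continuousAt.eventually h2
    filter_upwards [h3] with w hw
    rw [key w]
    exact hw

/-- holomorphic function of a null linear form is harmonic -/
theorem harmonicAt_comp_null {ι : Type*} [Fintype ι]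
    (L : EuclideanSpace ℝ ι →L[ℝ] ℂ) (hL : ∑ i, (L (EuclideanSpace.basisFun ι ℝ i)) ^ 2 = 0)
    {F : ℂ → ℂ} (hF : ContDiff ℂ 2 F) (x : EuclideanSpace ℝ ι) :
    HarmonicAt (fun y => F (L y)) x := by
  have hFr : ContDiff ℝ 2 F := hF.restrict_scalars ℝ
  have key : ∀ w : EuclideanSpace ℝ ι, (Δ (F ∘ L)) w = 0 := by
    intro w
    rw [laplacian_eq_iteratedFDeriv_orthonormalBasis (F ∘ L) (EuclideanSpace.basisFun ι ℝ)]
    have h1 : ∀ i, iteratedFDeriv ℝ 2 (F ∘ L) w ![(EuclideanSpace.basisFun ι ℝ) i,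
        (EuclideanSpace.basisFun ι ℝ) i] =
        (L (EuclideanSpace.basisFun ι ℝ i)) ^ 2 * iteratedFDeriv ℂ 2 F (L w) ![1, 1] := by
      intro i
      rw [L.iteratedFDeriv_comp_right hFr w le_rfl]
      rw [← ContDiffAt.restrictScalars_iteratedFDeriv (𝕜 := ℝ) (hF.contDiffAt (x := L w))]
      simp only [Function.comp_apply, ContinuousMultilinearMap.compContinuousLinearMap_apply,
        ContinuousMultilinearMap.coe_restrictScalars]
      have : (fun i_1 => L ((![(EuclideanSpace.basisFun ι ℝ) i,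
          (EuclideanSpace.basisFun ι ℝ) i] : Fin 2 → _) i_1)) =
          fun j => (L (EuclideanSpace.basisFun ι ℝ i)) • (![1, 1] : Fin 2 → ℂ) j := by
        ext j; fin_cases j <;> simp
      rw [this, ContinuousMultilinearMap.map_smul_univ]
      simp [Finset.prod_const, sq]
    simp only [h1]
    rw [← Finset.sum_mul, hL, zero_mul]
  constructor
  · exact (hFr.comp L.contDiff).contDiffAt
  · filter_upwards with w
    exact key w

/-- the sum of an `M`-periodic function over `M` consecutive integers does not depend on the start -/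
theorem sum_periodic_shift (M : ℕ) (G : ℤ → ℝ) (hG : ∀ j, G (j + M) = G j) (k : ℤ) :
    ∑ j ∈ Finset.range M, G (j + k) = ∑ j ∈ Finset.range M, G j := by
  have step : ∀ k : ℤ, ∑ j ∈ Finset.range M, G (j + (k + 1)) = ∑ j ∈ Finset.range M, G (j + k) := by
    intro k
    have h1 : ∑ j ∈ Finset.range (M + 1), G (j + k) =
        ∑ j ∈ Finset.range M, G (j + k) + G (M + k) := Finset.sum_range_succ _ _
    have h2 : ∑ j ∈ Finset.range (M + 1), G (j + k) =
        ∑ j ∈ Finset.range M, G ((j + 1 : ℕ) + k) + G ((0 : ℕ) + k) := Finset.sum_range_succ' _ _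
    have h3 : G (M + k) = G ((0 : ℕ) + k) := by
      rw [add_comm, hG]; simp
    have h4 : ∀ j : ℕ, G ((j + 1 : ℕ) + k) = G (j + (k + 1)) := by
      intro j; congr 1; push_cast; ring
    simp only [h4] at h2
    linarith
  induction k using Int.induction_on with
  | zero => simp
  | succ k ih => rw [step]; exact ih
  | pred k ih =>
    have := step (-(k : ℤ) - 1)
    rw [← this]
    simpa using ih

theorem one_sub_pow_le (k : ℕ) (x : ℝ) (hx0 : 0 ≤ x) (hx1 : x ≤ 1) :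
    (1 - x) ^ k ≤ 1 / (1 + k * x) := by
  have h1 : 1 + k * x ≤ (1 + x) ^ k := by
    have := one_add_mul_le_pow (a := x) (by linarith) k
    linarith
  have h2 : (1 - x) ^ k * (1 + x) ^ k ≤ 1 := by
    rw [← mul_pow]
    apply pow_le_one₀
    · nlinarith
    · nlinarith
  have h3 : 0 < 1 + k * x := by positivity
  rw [le_div_iff₀ h3]
  calc (1 - x) ^ k * (1 + k * x) ≤ (1 - x) ^ k * (1 + x) ^ k := by
        apply mul_le_mul_of_nonneg_left h1
        apply pow_nonneg; linarith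
    _ ≤ 1 := h2

theorem sum_cauchy_le (M : ℕ) (y : ℝ) (hy0 : 0 ≤ y) (hy1 : y ≤ 1) :
    ∑ l ∈ Finset.range M, y / (1 + 4 * y ^ 2 * l ^ 2) ≤ 3 := by
  have key : ∀ M : ℕ, ∑ l ∈ Finset.range (M + 1), y / (1 + 4 * y ^ 2 * l ^ 2) ≤
      y + 2 * (y * M / (1 + y * M)) := by
    intro M
    induction M with
    | zero => simp
    | succ M ih =>
      rw [Finset.sum_range_succ]
      have h0 : (0 : ℝ) ≤ M := Nat.cast_nonneg M
      have h1 : y / (1 + 4 * y ^ 2 * ((M + 1 : ℕ) : ℝ) ^ 2) ≤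
          2 * (y * (M + 1 : ℕ) / (1 + y * (M + 1 : ℕ))) - 2 * (y * M / (1 + y * M)) := by
        push_cast
        have e1 : 2 * (y * ((M : ℝ) + 1) / (1 + y * ((M : ℝ) + 1))) - 2 * (y * M / (1 + y * M)) =
            2 * y / ((1 + y * M) * (1 + y * (M + 1))) := by
          field_simp
          ring
        rw [e1, div_le_div_iff₀ (by positivity) (by positivity)]
        have h2 : (1 + y * M) * (1 + y * (M + 1)) ≤ 2 * (1 + 4 * y ^ 2 * ((M : ℝ) + 1) ^ 2) := by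
          nlinarith [mul_nonneg hy0 h0, sq_nonneg (1 - y * ((M:ℝ) + 1)), sq_nonneg (y * ((M:ℝ) + 1))]
        nlinarith
      linarith
  rcases M with _ | M
  · simp
  · have h := key M
    have h2 : y * M / (1 + y * M) ≤ 1 := by
      rw [div_le_one (by positivity)]; linarith
    linarith

/-- main discrete estimate -/
theorem sum_sin_le (M : ℕ) (hM : 0 < M) (y φ : ℝ) (hy0 : 0 ≤ y) (hy1 : y ≤ 1) :
    ∑ j ∈ Finset.range M, y / (1 + (M : ℝ) ^ 2 * (y ^ 2 * Real.sin (Real.pi * j / M - φ) ^ 2)) ≤ 6 := by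
  have hMr : (0 : ℝ) < M := by exact_mod_cast hM
  have hpi := Real.pi_pos
  set k : ℤ := ⌈M * φ / Real.pi⌉ with hk
  set G : ℤ → ℝ := fun j => y / (1 + (M : ℝ) ^ 2 * (y ^ 2 * Real.sin (Real.pi * j / M - φ) ^ 2)) with hGdef
  have hG : ∀ j, G (j + M) = G j := by
    intro j
    simp only [hGdef]
    have : Real.pi * ((j + (M : ℤ) : ℤ) : ℝ) / M - φ = (Real.pi * j / M - φ) + Real.pi := by
      push_cast
      field_simp
      ring
    rw [this, Real.sin_add_pi, neg_sq]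
  have h1 := sum_periodic_shift M G hG k
  have h2 : ∑ j ∈ Finset.range M, G (j : ℤ) = ∑ j ∈ Finset.range M, y / (1 + (M : ℝ) ^ 2 * (y ^ 2 * Real.sin (Real.pi * j / M - φ) ^ 2)) := by
    apply Finset.sum_congr rfl
    intro j _
    simp [hGdef]
  rw [← h2, ← h1]
  set δ : ℝ := k - M * φ / Real.pi with hδ
  have hδ0 : 0 ≤ δ := by
    have := Int.le_ceil (M * φ / Real.pi)
    linarith
  have hδ1 : δ ≤ 1 := by
    have := Int.ceil_lt_add_one (M * φ / Real.pi)
    linarith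
  have h3 : ∀ l ∈ Finset.range M, G (l + k) ≤ y / (1 + 4 * y ^ 2 * (l : ℝ) ^ 2) +
      y / (1 + 4 * y ^ 2 * ((M - 1 - l : ℕ) : ℝ) ^ 2) := by
    intro l hl
    have hlM : l < M := Finset.mem_range.mp hl
    have hlM' : ((M - 1 - l : ℕ) : ℝ) = M - 1 - l := by
      have : M - 1 - l = M - (1 + l) := by omega
      rw [this, Nat.cast_sub (by omega)]
      push_cast; ring
    have hl0 : (0 : ℝ) ≤ l := Nat.cast_nonneg l
    have hlM1 : (l : ℝ) + 1 ≤ M := by exact_mod_cast hlM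
    simp only [hGdef]
    have e1 : Real.pi * ((l + k : ℤ) : ℝ) / M - φ = Real.pi * (l + δ) / M := by
      rw [hδ]
      push_cast
      field_simp
      ring
    rw [e1]
    set θ := Real.pi * (l + δ) / M with hθ
    have hθ0 : 0 ≤ θ := by positivity
    have hθ1 : θ ≤ Real.pi := by
      rw [hθ, div_le_iff₀ hMr]
      nlinarith
    have hsin0 : 0 ≤ Real.sin θ := Real.sin_nonneg_of_nonneg_of_le_pi hθ0 hθ1
    rw [hlM']
    rcases le_total θ (Real.pi / 2) with hc | hc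
    · have h4 : 2 / Real.pi * θ ≤ Real.sin θ := Real.mul_le_sin hθ0 hc
      have h5 : 2 * (l + δ) ≤ M * Real.sin θ := by
        have : 2 / Real.pi * θ * M = 2 * (l + δ) := by
          rw [hθ]; field_simp
        nlinarith
      have h6 : 4 * y ^ 2 * (l : ℝ) ^ 2 ≤ (M : ℝ) ^ 2 * (y ^ 2 * Real.sin θ ^ 2) := by
        have h7 : 2 * (l : ℝ) ≤ M * Real.sin θ := by linarith
        have h8 : (2 * (l : ℝ)) ^ 2 ≤ (M * Real.sin θ) ^ 2 := by
          apply pow_le_pow_left₀ (by positivity) h7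
        nlinarith [mul_le_mul_of_nonneg_left h8 (sq_nonneg y)]
      have h9 : y / (1 + (M : ℝ) ^ 2 * (y ^ 2 * Real.sin θ ^ 2)) ≤ y / (1 + 4 * y ^ 2 * (l : ℝ) ^ 2) := by
        apply div_le_div_of_nonneg_left hy0 (by positivity) (by linarith)
      have h10 : 0 ≤ y / (1 + 4 * y ^ 2 * ((M : ℝ) - 1 - l) ^ 2) := by positivity
      linarith
    · have h4 : 2 / Real.pi * (Real.pi - θ) ≤ Real.sin (Real.pi - θ) :=
        Real.mul_le_sin (by linarith) (by linarith)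
      rw [Real.sin_pi_sub] at h4
      have h5 : 2 * (M - (l + δ)) ≤ M * Real.sin θ := by
        have : 2 / Real.pi * (Real.pi - θ) * M = 2 * (M - (l + δ)) := by
          rw [hθ]; field_simp
        nlinarith
      have h6 : 4 * y ^ 2 * ((M : ℝ) - 1 - l) ^ 2 ≤ (M : ℝ) ^ 2 * (y ^ 2 * Real.sin θ ^ 2) := by
        have h7 : 2 * ((M : ℝ) - 1 - l) ≤ M * Real.sin θ := by linarith
        have h8 : (2 * ((M : ℝ) - 1 - l)) ^ 2 ≤ (M * Real.sin θ) ^ 2 := by
          apply pow_le_pow_left₀ (by linarith) h7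
        nlinarith [mul_le_mul_of_nonneg_left h8 (sq_nonneg y)]
      have h9 : y / (1 + (M : ℝ) ^ 2 * (y ^ 2 * Real.sin θ ^ 2)) ≤
          y / (1 + 4 * y ^ 2 * ((M : ℝ) - 1 - l) ^ 2) := by
        apply div_le_div_of_nonneg_left hy0 (by positivity) (by linarith)
      have h10 : 0 ≤ y / (1 + 4 * y ^ 2 * (l : ℝ) ^ 2) := by positivity
      linarith
  calc ∑ j ∈ Finset.range M, G (j + k) ≤ ∑ l ∈ Finset.range M, (y / (1 + 4 * y ^ 2 * (l : ℝ) ^ 2) +
      y / (1 + 4 * y ^ 2 * ((M - 1 - l : ℕ) : ℝ) ^ 2)) := Finset.sum_le_sum h3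
    _ = ∑ l ∈ Finset.range M, y / (1 + 4 * y ^ 2 * (l : ℝ) ^ 2) +
        ∑ l ∈ Finset.range M, y / (1 + 4 * y ^ 2 * ((M - 1 - l : ℕ) : ℝ) ^ 2) := Finset.sum_add_distrib
    _ = ∑ l ∈ Finset.range M, y / (1 + 4 * y ^ 2 * (l : ℝ) ^ 2) +
        ∑ l ∈ Finset.range M, y / (1 + 4 * y ^ 2 * (l : ℝ) ^ 2) := by
        congr 1
        exact Finset.sum_range_reflect (fun l : ℕ => y / (1 + 4 * y ^ 2 * (l : ℝ) ^ 2)) M
    _ ≤ 3 + 3 := add_le_add (sum_cauchy_le M y hy0 hy1) (sum_cauchy_le M y hy0 hy1)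
    _ = 6 := by norm_num

/-- the null linear form `x ↦ x₀ + i (x₁ cos t + x₂ sin t)` -/
noncomputable def lin {n : ℕ} (i0 i1 i2 : Fin n) (t : ℝ) : EuclideanSpace ℝ (Fin n) →L[ℝ] ℂ :=
  Complex.ofRealCLM.comp (EuclideanSpace.proj i0) +
    (Complex.I * Real.cos t) • (Complex.ofRealCLM.comp (EuclideanSpace.proj i1)) +
    (Complex.I * Real.sin t) • (Complex.ofRealCLM.comp (EuclideanSpace.proj i2))

theorem lin_apply {n : ℕ} (i0 i1 i2 : Fin n) (t : ℝ) (x : EuclideanSpace ℝ (Fin n)) :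
    lin i0 i1 i2 t x = (x i0 : ℂ) + Complex.I * Real.cos t * x i1 + Complex.I * Real.sin t * x i2 := by
  simp [lin]

theorem lin_null {n : ℕ} (i0 i1 i2 : Fin n) (h01 : i0 ≠ i1) (h02 : i0 ≠ i2) (h12 : i1 ≠ i2) (t : ℝ) :
    ∑ i, (lin i0 i1 i2 t (EuclideanSpace.basisFun (Fin n) ℝ i)) ^ 2 = 0 := by
  have h1 : ∀ i, (lin i0 i1 i2 t (EuclideanSpace.basisFun (Fin n) ℝ i)) ^ 2 =
      (if i = i0 then (1 : ℂ) else 0) + (if i = i1 then (-(Real.cos t : ℂ) ^ 2) else 0) +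
        (if i = i2 then (-(Real.sin t : ℂ) ^ 2) else 0) := by
    intro i
    rw [lin_apply]
    by_cases e0 : i = i0
    · subst e0
      simp [h01, h02, Ne.symm h01, Ne.symm h02]
    · by_cases e1 : i = i1
      · subst e1
        simp [h01, h12, Ne.symm h01, Ne.symm h12]
        ring_nf
        simp
      · by_cases e2 : i = i2
        · subst e2
          simp [h02, h12, Ne.symm h02, Ne.symm h12]
          ring_nf
          simp
        · simp [e0, e1, e2, Ne.symm e0, Ne.symm e1, Ne.symm e2]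
  simp only [h1, Finset.sum_add_distrib, Finset.sum_ite_eq', Finset.mem_univ, if_true]
  have := Complex.cos_sq_add_sin_sq (t : ℂ)
  push_cast
  linear_combination -this

/-- the generating polynomial -/
noncomputable def Fk (k : ℕ) (z : ℂ) : ℂ := z ^ (2 * k) * (1 - z ^ 2)

/-- the extremal harmonic functions -/
noncomputable def vM {n : ℕ} (i0 i1 i2 : Fin n) (M : ℕ) (x : EuclideanSpace ℝ (Fin n)) : ℂ :=
  ∑ j ∈ Finset.range M, Fk (M ^ 2) (lin i0 i1 i2 (Real.pi * j / M) x)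

theorem harmonicAt_finset_sum {ι E F : Type*} [NormedAddCommGroup E] [InnerProductSpace ℝ E]
    [FiniteDimensional ℝ E] [NormedAddCommGroup F] [NormedSpace ℝ F] (s : Finset ι)
    (f : ι → E → F) (x : E) (h : ∀ i ∈ s, HarmonicAt (f i) x) :
    HarmonicAt (fun y => ∑ i ∈ s, f i y) x := by
  classical
  induction s using Finset.induction_on with
  | empty => simp
  | insert a s ha ih =>
    have h1 : (fun y => ∑ i ∈ insert a s, f i y) = f a + fun y => ∑ i ∈ s, f i y := by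
      ext y
      simp [Finset.sum_insert ha]
    rw [h1]
    exact (h a (Finset.mem_insert_self _ _)).add
      (ih fun i hi => h i (Finset.mem_insert_of_mem hi))

theorem vM_harmonic {n : ℕ} (i0 i1 i2 : Fin n) (h01 : i0 ≠ i1) (h02 : i0 ≠ i2) (h12 : i1 ≠ i2)
    (M : ℕ) (x : EuclideanSpace ℝ (Fin n)) : HarmonicAt (vM i0 i1 i2 M) x := by
  unfold vM
  apply harmonicAt_finset_sum
  intro j _
  apply harmonicAt_comp_null _ (lin_null i0 i1 i2 h01 h02 h12 _)
  unfold Fk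
  fun_prop

theorem coord_sq_le {n : ℕ} (i0 i1 i2 : Fin n) (h01 : i0 ≠ i1) (h02 : i0 ≠ i2) (h12 : i1 ≠ i2)
    (x : EuclideanSpace ℝ (Fin n)) : x i0 ^ 2 + x i1 ^ 2 + x i2 ^ 2 ≤ ‖x‖ ^ 2 := by
  rw [EuclideanSpace.norm_sq_eq]
  have h1 : ∑ i ∈ ({i0, i1, i2} : Finset (Fin n)), ‖x i‖ ^ 2 ≤ ∑ i, ‖x i‖ ^ 2 :=
    Finset.sum_le_sum_of_subset_of_nonneg (Finset.subset_univ _) (fun _ _ _ => by positivity)
  rw [Finset.sum_insert (by simp [h01, h02]), Finset.sum_insert (by simp [h12]),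
    Finset.sum_singleton] at h1
  simp only [Real.norm_eq_abs, sq_abs] at h1 ⊢
  linarith

theorem norm_lin_sq {n : ℕ} (i0 i1 i2 : Fin n) (t : ℝ) (x : EuclideanSpace ℝ (Fin n)) :
    ‖lin i0 i1 i2 t x‖ ^ 2 = x i0 ^ 2 + (x i1 * Real.cos t + x i2 * Real.sin t) ^ 2 := by
  have : lin i0 i1 i2 t x = ((x i0 : ℝ) : ℂ) + ((x i1 * Real.cos t + x i2 * Real.sin t : ℝ) : ℂ) * Complex.I := by
    rw [lin_apply]; push_cast; ring
  rw [this, ← Complex.normSq_eq_norm_sq, Complex.normSq_add_mul_I]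

theorem norm_lin_le {n : ℕ} (i0 i1 i2 : Fin n) (h01 : i0 ≠ i1) (h02 : i0 ≠ i2) (h12 : i1 ≠ i2)
    (t : ℝ) (x : EuclideanSpace ℝ (Fin n)) : ‖lin i0 i1 i2 t x‖ ≤ ‖x‖ := by
  have h1 := norm_lin_sq i0 i1 i2 t x
  have h2 := coord_sq_le i0 i1 i2 h01 h02 h12 x
  have h3 : (x i1 * Real.cos t + x i2 * Real.sin t) ^ 2 ≤ x i1 ^ 2 + x i2 ^ 2 := by
    have := Real.sin_sq_add_cos_sq t
    nlinarith [sq_nonneg (x i1 * Real.sin t - x i2 * Real.cos t)]
  have h4 : ‖lin i0 i1 i2 t x‖ ^ 2 ≤ ‖x‖ ^ 2 := by linarith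
  exact le_of_sq_le_sq h4 (norm_nonneg _)

theorem one_sub_mul_pow_le (k : ℕ) (q : ℝ) (h0 : 0 ≤ q) (h1 : q ≤ 1) :
    q ^ k * (1 - q) ≤ 1 / (k + 1) := by
  rw [le_div_iff₀ (by positivity)]
  have h2 : ∀ k : ℕ, q ^ k * (1 - q) * (k + 1) ≤ 1 - q ^ (k + 1) := by
    intro k
    induction k with
    | zero => simp
    | succ k ih =>
      have h3 : 0 ≤ q ^ k := pow_nonneg h0 k
      have h4 : 0 ≤ q ^ (k + 1) := pow_nonneg h0 _
      have h5 : (0 : ℝ) ≤ k := Nat.cast_nonneg k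
      push_cast
      have e1 : q ^ (k + 1) * (1 - q) * ((k : ℝ) + 1 + 1) =
        q * (q ^ k * (1 - q) * (k + 1)) + q ^ (k + 1) * (1 - q) := by ring
      have e2 : 1 - q ^ (k + 1 + 1) = (1 - q ^ (k + 1)) + q ^ (k + 1) * (1 - q) := by ring
      have h6 : 0 ≤ q ^ k * (1 - q) * (k + 1) := by
        have : 0 ≤ 1 - q := by linarith
        positivity
      rw [e1, e2]
      nlinarith
  have := h2 k
  have h4 : 0 ≤ q ^ (k + 1) := pow_nonneg h0 _
  linarith

theorem norm_Fk_lin_le {n : ℕ} (i0 i1 i2 : Fin n) (h01 : i0 ≠ i1) (h02 : i0 ≠ i2) (h12 : i1 ≠ i2)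
    (k : ℕ) (t : ℝ) (x : EuclideanSpace ℝ (Fin n)) (hx : ‖x‖ ≤ 1) (y φ : ℝ) (hy0 : 0 ≤ y)
    (hy1 : y ≤ 1) (hb : x i1 = y * Real.cos φ) (hc : x i2 = y * Real.sin φ) :
    ‖Fk k (lin i0 i1 i2 t x)‖ ≤ 1 / (k + 1) + 4 * (y / (1 + k * (y ^ 2 * Real.sin (t - φ) ^ 2))) := by
  have hcoord := coord_sq_le i0 i1 i2 h01 h02 h12 x
  have hx2 : ‖x‖ ^ 2 ≤ 1 := by
    have := norm_nonneg x
    nlinarith
  set a := x i0 with ha
  have hsum : x i1 ^ 2 + x i2 ^ 2 = y ^ 2 := by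
    rw [hb, hc]
    have := Real.sin_sq_add_cos_sq φ
    nlinarith
  have hs1 : a ^ 2 + y ^ 2 ≤ 1 := by nlinarith
  set c := Real.cos (t - φ) with hcdef
  have hbc : x i1 * Real.cos t + x i2 * Real.sin t = y * c := by
    rw [hb, hc, hcdef, Real.cos_sub]; ring
  have hsc := Real.sin_sq_add_cos_sq (t - φ)
  have hnorm : ‖lin i0 i1 i2 t x‖ ^ 2 = (a ^ 2 + y ^ 2) - y ^ 2 * Real.sin (t - φ) ^ 2 := by
    rw [norm_lin_sq, hbc, ← ha]
    have : c ^ 2 = 1 - Real.sin (t - φ) ^ 2 := by rw [hcdef]; linarith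
    nlinarith
  have hζ : lin i0 i1 i2 t x = (a : ℂ) + (y * c : ℝ) * Complex.I := by
    rw [lin_apply, ← hbc]; push_cast; ring
  have h1 : ‖1 - (lin i0 i1 i2 t x) ^ 2‖ ≤ (1 - (a ^ 2 + y ^ 2)) + 4 * y := by
    have e1 : 1 - (lin i0 i1 i2 t x) ^ 2 =
        ((1 - (a ^ 2 + y ^ 2) : ℝ) : ℂ) + (((y ^ 2 * (1 + c ^ 2) : ℝ) : ℂ) -
          ((2 * a * (y * c) : ℝ) : ℂ) * Complex.I) := by
      rw [hζ]
      push_cast
      ring_nf
      simp only [Complex.I_sq]
      ring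
    rw [e1]
    have hc1 : |c| ≤ 1 := Real.abs_cos_le_one _
    have hc2 : c ^ 2 ≤ 1 := by
      rw [← sq_abs]; have := abs_nonneg c; nlinarith
    have ha1 : |a| ≤ 1 := by
      rw [← sq_le_one_iff_abs_le_one]; nlinarith
    calc ‖((1 - (a ^ 2 + y ^ 2) : ℝ) : ℂ) + (((y ^ 2 * (1 + c ^ 2) : ℝ) : ℂ) -
          ((2 * a * (y * c) : ℝ) : ℂ) * Complex.I)‖ ≤
        ‖((1 - (a ^ 2 + y ^ 2) : ℝ) : ℂ)‖ + (‖((y ^ 2 * (1 + c ^ 2) : ℝ) : ℂ)‖ +
          ‖((2 * a * (y * c) : ℝ) : ℂ) * Complex.I‖) := by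
          refine (norm_add_le _ _).trans ?_
          gcongr
          exact norm_sub_le _ _
      _ = (1 - (a ^ 2 + y ^ 2)) + (y ^ 2 * (1 + c ^ 2) + |2 * a * (y * c)|) := by
          rw [norm_mul, Complex.norm_I, mul_one, Complex.norm_real, Complex.norm_real,
            Complex.norm_real, Real.norm_eq_abs, Real.norm_eq_abs, Real.norm_eq_abs,
            abs_of_nonneg (by linarith : (0:ℝ) ≤ 1 - (a ^ 2 + y ^ 2)),
            abs_of_nonneg (by positivity : (0:ℝ) ≤ y ^ 2 * (1 + c ^ 2))]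
      _ ≤ (1 - (a ^ 2 + y ^ 2)) + 4 * y := by
          have h2 : |2 * a * (y * c)| ≤ 2 * y := by
            rw [abs_mul, abs_mul, abs_mul, abs_of_nonneg hy0]
            have : |(2 : ℝ)| = 2 := by norm_num
            rw [this]
            have := abs_nonneg a
            have := abs_nonneg c
            have h3 : |a| * |c| ≤ 1 := by nlinarith
            nlinarith
          have h3 : y ^ 2 * (1 + c ^ 2) ≤ 2 * y := by nlinarith [mul_nonneg hy0 (sq_nonneg c)]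
          linarith
  have hsin1 : Real.sin (t - φ) ^ 2 ≤ 1 := by nlinarith [sq_nonneg (Real.cos (t - φ))]
  have h2 : ‖lin i0 i1 i2 t x‖ ^ (2 * k) = ((a ^ 2 + y ^ 2) - y ^ 2 * Real.sin (t - φ) ^ 2) ^ k := by
    rw [pow_mul, hnorm]
  have hq0 : 0 ≤ (a ^ 2 + y ^ 2) - y ^ 2 * Real.sin (t - φ) ^ 2 := by
    nlinarith [sq_nonneg a, mul_le_mul_of_nonneg_left hsin1 (sq_nonneg y)]
  have h3 : ((a ^ 2 + y ^ 2) - y ^ 2 * Real.sin (t - φ) ^ 2) ^ k ≤ (a ^ 2 + y ^ 2) ^ k := by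
    apply pow_le_pow_left₀ hq0
    nlinarith [mul_nonneg (sq_nonneg y) (sq_nonneg (Real.sin (t - φ)))]
  have h4 : ((a ^ 2 + y ^ 2) - y ^ 2 * Real.sin (t - φ) ^ 2) ^ k ≤
      (1 - y ^ 2 * Real.sin (t - φ) ^ 2) ^ k := by
    apply pow_le_pow_left₀ hq0
    linarith
  have h5 : y ^ 2 * Real.sin (t - φ) ^ 2 ≤ 1 := by
    have : y ^ 2 ≤ 1 := by nlinarith
    nlinarith [mul_le_mul_of_nonneg_left hsin1 (sq_nonneg y)]
  have h6 := one_sub_pow_le k (y ^ 2 * Real.sin (t - φ) ^ 2) (by positivity) h5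
  have h7 := one_sub_mul_pow_le k (a ^ 2 + y ^ 2) (by positivity) hs1
  have hpos : 0 ≤ ((a ^ 2 + y ^ 2) - y ^ 2 * Real.sin (t - φ) ^ 2) ^ k := pow_nonneg hq0 k
  calc ‖Fk k (lin i0 i1 i2 t x)‖ = ‖lin i0 i1 i2 t x‖ ^ (2 * k) * ‖1 - (lin i0 i1 i2 t x) ^ 2‖ := by
        rw [Fk, norm_mul, norm_pow]
    _ ≤ ((a ^ 2 + y ^ 2) - y ^ 2 * Real.sin (t - φ) ^ 2) ^ k * ((1 - (a ^ 2 + y ^ 2)) + 4 * y) := by
        rw [h2]
        exact mul_le_mul_of_nonneg_left h1 hpos
    _ = ((a ^ 2 + y ^ 2) - y ^ 2 * Real.sin (t - φ) ^ 2) ^ k * (1 - (a ^ 2 + y ^ 2)) +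
        4 * y * ((a ^ 2 + y ^ 2) - y ^ 2 * Real.sin (t - φ) ^ 2) ^ k := by ring
    _ ≤ (a ^ 2 + y ^ 2) ^ k * (1 - (a ^ 2 + y ^ 2)) +
        4 * y * (1 / (1 + k * (y ^ 2 * Real.sin (t - φ) ^ 2))) := by
        apply add_le_add
        · exact mul_le_mul_of_nonneg_right h3 (by linarith)
        · exact mul_le_mul_of_nonneg_left (h4.trans h6) (by linarith)
    _ ≤ 1 / (k + 1) + 4 * (y / (1 + k * (y ^ 2 * Real.sin (t - φ) ^ 2))) := by
        have e : 4 * y * (1 / (1 + k * (y ^ 2 * Real.sin (t - φ) ^ 2))) =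
          4 * (y / (1 + k * (y ^ 2 * Real.sin (t - φ) ^ 2))) := by ring
        rw [e]
        linarith

theorem norm_vM_le {n : ℕ} (i0 i1 i2 : Fin n) (h01 : i0 ≠ i1) (h02 : i0 ≠ i2) (h12 : i1 ≠ i2)
    (M : ℕ) (hM : 0 < M) (x : EuclideanSpace ℝ (Fin n)) (hx : ‖x‖ ≤ 1) :
    ‖vM i0 i1 i2 M x‖ ≤ 25 := by
  have hMr : (1 : ℝ) ≤ M := by exact_mod_cast hM
  set z : ℂ := ⟨x i1, x i2⟩ with hz
  have hb : x i1 = ‖z‖ * Real.cos z.arg := by
    rw [Complex.norm_mul_cos_arg]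
  have hc : x i2 = ‖z‖ * Real.sin z.arg := by
    rw [Complex.norm_mul_sin_arg]
  have hcoord := coord_sq_le i0 i1 i2 h01 h02 h12 x
  have hz1 : ‖z‖ ≤ 1 := by
    have h1 : ‖z‖ ^ 2 = x i1 ^ 2 + x i2 ^ 2 := by
      rw [← Complex.normSq_eq_norm_sq, Complex.normSq_apply]
      simp [hz]; ring
    have h2 : ‖z‖ ^ 2 ≤ 1 := by
      have := norm_nonneg x
      nlinarith [sq_nonneg (x i0)]
    have := norm_nonneg z
    nlinarith
  calc ‖vM i0 i1 i2 M x‖ ≤ ∑ j ∈ Finset.range M, ‖Fk (M ^ 2) (lin i0 i1 i2 (Real.pi * j / M) x)‖ :=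
        norm_sum_le _ _
    _ ≤ ∑ j ∈ Finset.range M, (1 / (((M ^ 2 : ℕ) : ℝ) + 1) +
        4 * (‖z‖ / (1 + ((M ^ 2 : ℕ) : ℝ) * (‖z‖ ^ 2 * Real.sin (Real.pi * j / M - z.arg) ^ 2)))) := by
        apply Finset.sum_le_sum
        intro j _
        exact norm_Fk_lin_le i0 i1 i2 h01 h02 h12 (M ^ 2) _ x hx ‖z‖ z.arg (norm_nonneg _) hz1 hb hc
    _ = M * (1 / (((M ^ 2 : ℕ) : ℝ) + 1)) + 4 * ∑ j ∈ Finset.range M,
        ‖z‖ / (1 + (M : ℝ) ^ 2 * (‖z‖ ^ 2 * Real.sin (Real.pi * j / M - z.arg) ^ 2)) := by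
        rw [Finset.sum_add_distrib, Finset.mul_sum]
        simp
    _ ≤ 1 + 4 * 6 := by
        apply add_le_add
        · push_cast
          rw [mul_one_div, div_le_one (by positivity)]
          nlinarith
        · exact mul_le_mul_of_nonneg_left (sum_sin_le M hM ‖z‖ z.arg (norm_nonneg _) hz1) (by norm_num)
    _ = 25 := by norm_num

theorem norm_vM_le_pow {n : ℕ} (i0 i1 i2 : Fin n) (h01 : i0 ≠ i1) (h02 : i0 ≠ i2) (h12 : i1 ≠ i2)
    (M : ℕ) (ρ : ℝ) (hρ1 : ρ ≤ 1) (x : EuclideanSpace ℝ (Fin n)) (hx : ‖x‖ ≤ ρ) :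
    ‖vM i0 i1 i2 M x‖ ≤ 2 * M * ρ ^ (2 * M ^ 2) := by
  calc ‖vM i0 i1 i2 M x‖ ≤ ∑ j ∈ Finset.range M, ‖Fk (M ^ 2) (lin i0 i1 i2 (Real.pi * j / M) x)‖ :=
        norm_sum_le _ _
    _ ≤ ∑ j ∈ Finset.range M, 2 * ρ ^ (2 * M ^ 2) := by
        apply Finset.sum_le_sum
        intro j _
        have h1 := (norm_lin_le i0 i1 i2 h01 h02 h12 (Real.pi * j / M) x).trans hx
        rw [Fk, norm_mul, norm_pow]
        have h2 : ‖1 - (lin i0 i1 i2 (Real.pi * j / M) x) ^ 2‖ ≤ 2 := by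
          calc ‖1 - (lin i0 i1 i2 (Real.pi * j / M) x) ^ 2‖ ≤ ‖(1 : ℂ)‖ + ‖(lin i0 i1 i2 (Real.pi * j / M) x) ^ 2‖ :=
                norm_sub_le _ _
            _ ≤ 1 + 1 := by
                rw [norm_one, norm_pow]
                have h3 : ‖(lin i0 i1 i2 (Real.pi * j / M) x)‖ ≤ 1 := h1.trans hρ1
                have := pow_le_one₀ (n := 2) (norm_nonneg _) h3
                linarith
            _ = 2 := by norm_num
        rw [mul_comm]
        apply mul_le_mul h2 (pow_le_pow_left₀ (norm_nonneg _) h1 _) (by positivity) (by norm_num)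
    _ = 2 * M * ρ ^ (2 * M ^ 2) := by simp; ring

theorem vM_axis {n : ℕ} (i0 i1 i2 : Fin n) (h01 : i0 ≠ i1) (h02 : i0 ≠ i2)
    (M : ℕ) (s : ℝ) :
    vM i0 i1 i2 M (s • EuclideanSpace.single i0 (1 : ℝ)) = M * ((s : ℂ) ^ (2 * M ^ 2) * (1 - (s : ℂ) ^ 2)) := by
  unfold vM
  have : ∀ t, lin i0 i1 i2 t (s • EuclideanSpace.single i0 (1 : ℝ)) = (s : ℂ) := by
    intro t
    rw [lin_apply]
    simp [Ne.symm h01, Ne.symm h02]
  simp only [this, Finset.sum_const, Finset.card_range, nsmul_eq_mul]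
  rfl

/-- Taylor coefficient -/
noncomputable def tc (f : ℂ → ℂ) (k : ℕ) : ℂ := (k.factorial : ℂ)⁻¹ * iteratedDeriv k f 0

theorem norm_circleAverage_le {F : ℂ → ℂ} {s B : ℝ} (hs : 0 < s)
    (h : ∀ z, ‖z‖ = s → ‖F z‖ ≤ B) : ‖Real.circleAverage F 0 s‖ ≤ B := by
  rw [Real.circleAverage_def, norm_smul]
  have h1 : ‖∫ θ in (0:ℝ)..2 * Real.pi, F (circleMap 0 s θ)‖ ≤ B * |2 * Real.pi - 0| := by
    apply intervalIntegral.norm_integral_le_of_norm_le_const
    intro θ _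
    apply h
    simp [abs_of_pos hs]
  have hpi := Real.pi_pos
  rw [sub_zero, abs_of_pos (by positivity)] at h1
  rw [Real.norm_eq_abs, abs_of_pos (by positivity)]
  calc (2 * Real.pi)⁻¹ * ‖∫ θ in (0:ℝ)..2 * Real.pi, F (circleMap 0 s θ)‖
      ≤ (2 * Real.pi)⁻¹ * (B * (2 * Real.pi)) := by gcongr
    _ = B := by field_simp

theorem coef_bound {f g : ℂ → ℂ} (hf : DifferentiableOn ℂ f (ball 0 1))
    (hg : DifferentiableOn ℂ g (ball 0 1)) {s B : ℝ} (hs0 : 0 < s) (hs1 : s < 1)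
    (h : ∀ z, ‖z‖ = s → ‖f z + conj (g z)‖ ≤ B) (k : ℕ) (hk : 1 ≤ k) :
    ‖tc f k‖ ≤ B / s ^ k := by
  have hsub : closedBall (0 : ℂ) s ⊆ ball 0 1 := closedBall_subset_ball hs1
  have hsph : sphere (0 : ℂ) |s| ⊆ closedBall 0 s := by
    rw [abs_of_pos hs0]; exact sphere_subset_closedBall
  have hne : ∀ z ∈ sphere (0 : ℂ) |s|, z ≠ 0 := by
    intro z hz hz0
    rw [hz0] at hz
    simp at hz
    exact (abs_pos.mpr hs0.ne').ne hz
  have hcf : ContinuousOn f (sphere (0 : ℂ) |s|) := (hf.continuousOn).mono (hsph.trans hsub)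
  have hcg : ContinuousOn g (sphere (0 : ℂ) |s|) := (hg.continuousOn).mono (hsph.trans hsub)
  have hcinv : ContinuousOn (fun z : ℂ => z⁻¹ ^ k) (sphere (0 : ℂ) |s|) := by
    apply ContinuousOn.pow
    exact continuousOn_id.inv₀ hne
  have i1 : CircleIntegrable (fun z => z⁻¹ ^ k * f z) 0 s := by
    apply ContinuousOn.circleIntegrable'
    exact hcinv.mul hcf
  have i2 : CircleIntegrable (fun z => z⁻¹ ^ k * conj (g z)) 0 s := by
    apply ContinuousOn.circleIntegrable'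
    exact hcinv.mul (Complex.continuous_conj.comp_continuousOn hcg)
  have i3 : CircleIntegrable (fun z => z ^ k * g z) 0 s := by
    apply ContinuousOn.circleIntegrable'
    exact (continuousOn_id.pow k).mul hcg
  have e1 : Real.circleAverage (fun z => z⁻¹ ^ k * f z) 0 s = tc f k := by
    rw [Real.circleAverage_eq_circleIntegral hs0.ne']
    have := DifferentiableOn.circleIntegral_one_div_sub_center_pow_smul hs0 k (hf.mono hsub)
    have e : (fun z : ℂ => (z - 0)⁻¹ • (z⁻¹ ^ k * f z)) = fun z => (1 / (z - 0) ^ (k + 1)) • f z := by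
      ext z
      simp only [sub_zero, smul_eq_mul, one_div, inv_pow, pow_succ, mul_inv]
      ring
    rw [e, this]
    simp only [smul_eq_mul, tc]
    have := Complex.two_pi_I_ne_zero
    field_simp
  have e2 : Real.circleAverage (fun z => z⁻¹ ^ k * conj (g z)) 0 s = 0 := by
    have e : Set.EqOn (fun z => z⁻¹ ^ k * conj (g z))
        (((s ^ (2 * k))⁻¹ : ℝ) • ((Complex.conjCLE : ℂ →L[ℝ] ℂ) ∘ (fun z => z ^ k * g z)))
        (sphere (0 : ℂ) |s|) := by
      intro z hz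
      have hz0 := hne z hz
      have hzs : ‖z‖ = s := by simpa [abs_of_pos hs0] using hz
      have hzz : z * conj z = (s : ℂ) ^ 2 := by
        rw [Complex.mul_conj, Complex.normSq_eq_norm_sq, hzs]; push_cast; ring
      have hs' : (s : ℂ) ≠ 0 := by exact_mod_cast hs0.ne'
      simp only [Pi.smul_apply, Function.comp_apply, ContinuousLinearEquiv.coe_coe,
        Complex.conjCLE_apply, map_mul, map_pow, Complex.real_smul]
      push_cast
      rw [pow_mul, ← hzz, mul_pow]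
      have hc0 : conj z ≠ 0 := by simpa using hz0
      rw [inv_pow]
      field_simp
    rw [Real.circleAverage_congr_sphere e, Real.circleAverage_smul,
      ContinuousLinearMap.circleAverage_comp_comm _ i3]
    have hd : DiffContOnCl ℂ (fun z : ℂ => z ^ k * g z) (ball 0 |s|) := by
      apply DifferentiableOn.diffContOnCl
      rw [abs_of_pos hs0, closure_ball _ hs0.ne']
      exact ((differentiable_id.pow k).differentiableOn).mul (hg.mono hsub)
    rw [hd.circleAverage]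
    have : (0 : ℂ) ^ k = 0 := zero_pow (by omega)
    rw [this]
    simp
  have e3 : Real.circleAverage (fun z => z⁻¹ ^ k * (f z + conj (g z))) 0 s = tc f k := by
    have : (fun z => z⁻¹ ^ k * (f z + conj (g z))) =
        (fun z => z⁻¹ ^ k * f z) + (fun z => z⁻¹ ^ k * conj (g z)) := by
      ext z; simp only [Pi.add_apply]; ring
    rw [this, Real.circleAverage_add i1 i2, e1, e2, add_zero]
  rw [← e3]
  apply norm_circleAverage_le hs0
  intro z hz
  rw [norm_mul, norm_pow, norm_inv, hz, inv_pow, div_eq_inv_mul]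
  gcongr
  exact h z hz

/-- the elementary sum estimate -/
theorem sum_est {ρ r δ : ℝ} (hρ : 0 < ρ) (hρr : ρ < r) (hr : r < 1) (hδ0 : 0 < δ) (hδ1 : δ ≤ 1)
    (c : ℕ → ℝ) (hc0 : ∀ k, 0 ≤ c k) (hc1 : ∀ k, c k ≤ 1) (hc2 : ∀ k, c k ≤ δ / ρ ^ k) :
    Summable (fun k => c k * r ^ k) ∧
    ∑' k, c k * r ^ k ≤ (1 / r) * (1 / (1 - ρ / r) + 1 / (1 - r)) * δ ^ (Real.log r / Real.log ρ) := by
  have hr0 : 0 < r := hρ.trans hρr
  have hsum : Summable (fun k => c k * r ^ k) := by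
    apply Summable.of_nonneg_of_le (fun k => mul_nonneg (hc0 k) (pow_nonneg hr0.le k))
      (fun k => mul_le_of_le_one_left (pow_nonneg hr0.le k) (hc1 k))
      (summable_geometric_of_lt_one hr0.le hr)
  refine ⟨hsum, ?_⟩
  obtain ⟨N, hN1, hN2⟩ := exists_nat_pow_near_of_lt_one hδ0 hδ1 hρ (hρr.trans hr)
  have hβ : ρ ^ (Real.log r / Real.log ρ) = r := by
    rw [Real.rpow_def_of_pos hρ, mul_div_cancel₀, Real.exp_log hr0]
    exact (Real.log_neg hρ (hρr.trans hr)).ne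
  have hβ0 : 0 < Real.log r / Real.log ρ :=
    div_pos_of_neg_of_neg (Real.log_neg hr0 hr) (Real.log_neg hρ (hρr.trans hr))
  set β := Real.log r / Real.log ρ with hβdef
  have hδβ : r ^ (N + 1) ≤ δ ^ β := by
    have h1 : (ρ ^ (N + 1)) ^ β ≤ δ ^ β := Real.rpow_le_rpow (by positivity) hN1.le hβ0.le
    have h2 : (ρ ^ (N + 1)) ^ β = r ^ (N + 1) := by
      rw [← Real.rpow_natCast, ← Real.rpow_mul hρ.le, mul_comm, Real.rpow_mul hρ.le, hβ,
        Real.rpow_natCast]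
    linarith
  have hq0 : 0 < ρ / r := by positivity
  have hq1 : ρ / r < 1 := (div_lt_one hr0).mpr hρr
  -- head
  have hhead : ∑ k ∈ Finset.range (N + 1), c k * r ^ k ≤ r ^ N * (1 / (1 - ρ / r)) := by
    calc ∑ k ∈ Finset.range (N + 1), c k * r ^ k ≤
        ∑ k ∈ Finset.range (N + 1), r ^ N * (ρ / r) ^ (N + 1 - 1 - k) := by
          apply Finset.sum_le_sum
          intro k hk
          have hkN : k ≤ N := by
            have := Finset.mem_range.mp hk; omega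
          obtain ⟨m, rfl⟩ := Nat.exists_eq_add_of_le hkN
          have h1 : c k ≤ ρ ^ (k + m) / ρ ^ k := (hc2 k).trans (by gcongr)
          have h2 : ρ ^ (k + m) / ρ ^ k = ρ ^ m := by
            rw [pow_add]; field_simp
          have h3 : k + m + 1 - 1 - k = m := by omega
          rw [h3, div_pow, pow_add]
          calc c k * r ^ k ≤ ρ ^ m * r ^ k := by
                rw [← h2]; gcongr
            _ = r ^ k * r ^ m * (ρ ^ m / r ^ m) := by field_simp
      _ = r ^ N * ∑ k ∈ Finset.range (N + 1), (ρ / r) ^ k := by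
          rw [← Finset.mul_sum, Finset.sum_range_reflect (fun k => (ρ / r) ^ k) (N + 1)]
      _ ≤ r ^ N * (1 / (1 - ρ / r)) := by
          gcongr
          have := Summable.sum_le_tsum (Finset.range (N + 1)) (fun k _ => pow_nonneg hq0.le k)
            (summable_geometric_of_lt_one hq0.le hq1)
          rw [tsum_geometric_of_lt_one hq0.le hq1] at this
          simpa using this
  have htail : ∑' k, c (k + (N + 1)) * r ^ (k + (N + 1)) ≤ r ^ N * (1 / (1 - r)) := by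
    have h1 : ∑' k, c (k + (N + 1)) * r ^ (k + (N + 1)) ≤ ∑' k : ℕ, r ^ (N + 1) * r ^ k := by
      apply Summable.tsum_le_tsum
      · intro k
        rw [pow_add r k, mul_comm (r ^ k)]
        exact mul_le_of_le_one_left (by positivity) (hc1 _)
      · exact (summable_nat_add_iff (N + 1)).mpr hsum
      · exact (summable_geometric_of_lt_one hr0.le hr).mul_left _
    rw [tsum_mul_left, tsum_geometric_of_lt_one hr0.le hr] at h1
    calc _ ≤ r ^ (N + 1) * (1 - r)⁻¹ := h1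
      _ ≤ r ^ N * (1 / (1 - r)) := by
        rw [one_div]
        have : 0 < (1 - r)⁻¹ := by
          apply inv_pos.mpr; linarith
        gcongr ?_ * _
        apply pow_le_pow_of_le_one hr0.le hr.le (by omega)
  rw [← hsum.sum_add_tsum_nat_add (N + 1)]
  have h3 : r ^ N ≤ (1 / r) * δ ^ β := by
    rw [one_div, inv_mul_eq_div, le_div_iff₀ hr0, ← pow_succ]
    exact hδβ
  have h4 : 0 ≤ 1 / (1 - ρ / r) + 1 / (1 - r) := by
    have : 0 < 1 - ρ / r := by linarith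
    have : 0 < 1 - r := by linarith
    positivity
  calc _ ≤ r ^ N * (1 / (1 - ρ / r)) + r ^ N * (1 / (1 - r)) := add_le_add hhead htail
    _ = r ^ N * (1 / (1 - ρ / r) + 1 / (1 - r)) := by ring
    _ ≤ ((1 / r) * δ ^ β) * (1 / (1 - ρ / r) + 1 / (1 - r)) := by gcongr
    _ = _ := by ring

theorem sum_est' {ρ r δ : ℝ} (hρ : 0 < ρ) (hρr : ρ < r) (hr : r < 1) (hδ0 : 0 ≤ δ) (hδ1 : δ ≤ 1)
    (c : ℕ → ℝ) (hc0 : ∀ k, 0 ≤ c k) (hc1 : ∀ k, c k ≤ 1) (hc2 : ∀ k, c k ≤ δ / ρ ^ k) :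
    Summable (fun k => c k * r ^ k) ∧
    ∑' k, c k * r ^ k ≤ (1 / r) * (1 / (1 - ρ / r) + 1 / (1 - r)) * δ ^ (Real.log r / Real.log ρ) := by
  rcases hδ0.eq_or_lt with h | h
  · subst h
    have hr0 : 0 < r := hρ.trans hρr
    have h0 : ∀ k, c k = 0 := fun k => le_antisymm (by simpa using hc2 k) (hc0 k)
    have h1 : ρ / r < 1 := (div_lt_one hr0).mpr hρr
    have h2 : 0 < 1 - ρ / r := by linarith
    have h3 : 0 < 1 - r := by linarith
    simp only [h0, zero_mul, tsum_zero]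
    exact ⟨summable_zero, by positivity⟩
  · exact sum_est hρ hρr hr h hδ1 c hc0 hc1 hc2

theorem le_div_pow_of_forall_lt {X B R : ℝ} (hR : 0 < R) (k : ℕ)
    (h : ∀ s, 0 < s → s < R → X ≤ B / s ^ k) : X ≤ B / R ^ k := by
  have h1 : Filter.Tendsto (fun s : ℝ => B / s ^ k) (𝓝[<] R) (𝓝 (B / R ^ k)) := by
    have : ContinuousAt (fun s : ℝ => B / s ^ k) R := by
      apply ContinuousAt.div continuousAt_const (continuousAt_id.pow k)
      exact pow_ne_zero k hR.ne'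
    exact this.tendsto.mono_left nhdsWithin_le_nhds
  refine ge_of_tendsto h1 ?_
  have h2 : Set.Ioo 0 R ∈ 𝓝[<] R := Ioo_mem_nhdsLT hR
  filter_upwards [h2] with s hs
  exact h s hs.1 hs.2

/-- harmonic functions on the disc split into an analytic and an antianalytic part -/
theorem exists_analytic_split {w : ℂ → ℂ} (hw : HarmonicOnNhd w (ball 0 1)) :
    ∃ f g : ℂ → ℂ, DifferentiableOn ℂ f (ball 0 1) ∧ DifferentiableOn ℂ g (ball 0 1) ∧
      ∀ z ∈ ball (0 : ℂ) 1, w z = f z + conj (g z) := by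
  have h1 : HarmonicOnNhd (Complex.reCLM ∘ w) (ball 0 1) := hw.comp_CLM Complex.reCLM
  have h2 : HarmonicOnNhd (Complex.imCLM ∘ w) (ball 0 1) := hw.comp_CLM Complex.imCLM
  obtain ⟨F1, hF1, hF1'⟩ := h1.exists_analyticOnNhd_ball_re_eq
  obtain ⟨F2, hF2, hF2'⟩ := h2.exists_analyticOnNhd_ball_re_eq
  refine ⟨fun z => (F1 z + Complex.I * F2 z) / 2, fun z => (F1 z - Complex.I * F2 z) / 2, ?_, ?_, ?_⟩
  · have a1 := hF1.differentiableOn
    have a2 := hF2.differentiableOn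
    fun_prop
  · have a1 := hF1.differentiableOn
    have a2 := hF2.differentiableOn
    fun_prop
  · intro z hz
    have b1 : (F1 z).re = (w z).re := hF1' hz
    have b2 : (F2 z).re = (w z).im := hF2' hz
    have e : (F1 z + Complex.I * F2 z) / 2 + conj ((F1 z - Complex.I * F2 z) / 2) =
        ((F1 z).re : ℂ) + Complex.I * ((F2 z).re : ℂ) := by
      rw [map_div₀, map_sub, map_mul, Complex.conj_I, Complex.conj_ofNat, Complex.re_eq_add_conj,
        Complex.re_eq_add_conj]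
      ring
    change w z = (F1 z + Complex.I * F2 z) / 2 + conj ((F1 z - Complex.I * F2 z) / 2)
    rw [e, b1, b2]
    apply Complex.ext <;> simp

theorem planar_bound {w : ℂ → ℂ} (hw : HarmonicOnNhd w (ball 0 1)) {ρ r δ : ℝ} (hρ : 0 < ρ)
    (hρr : ρ < r) (hr : r < 1) (hδ0 : 0 ≤ δ) (hδ1 : δ ≤ 1)
    (h1 : ∀ z, ‖z‖ < 1 → ‖w z‖ ≤ 1) (h2 : ∀ z, ‖z‖ < ρ → ‖w z‖ ≤ δ) (z : ℂ) (hz : ‖z‖ < r) :
    ‖w z‖ ≤ 2 * ((1 / r) * (1 / (1 - ρ / r) + 1 / (1 - r))) * δ ^ (Real.log r / Real.log ρ) := by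
  obtain ⟨f, g, hf, hg, hfg⟩ := exists_analytic_split hw
  have hρ1 : ρ < 1 := hρr.trans hr
  -- coefficient bounds
  have bf1 : ∀ k, 1 ≤ k → ‖tc f k‖ ≤ 1 := by
    intro k hk
    have := le_div_pow_of_forall_lt (X := ‖tc f k‖) (B := 1) (R := 1) one_pos k (fun s hs0 hs1 => by
      apply coef_bound hf hg hs0 hs1 _ k hk
      intro z hz
      rw [← hfg z (by simpa [hz] using hs1)]
      exact h1 z (by linarith))
    simpa using this
  have bf2 : ∀ k, 1 ≤ k → ‖tc f k‖ ≤ δ / ρ ^ k := by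
    intro k hk
    apply le_div_pow_of_forall_lt hρ k (fun s hs0 hs1 => by
      apply coef_bound hf hg hs0 (hs1.trans hρ1) _ k hk
      intro z hz
      rw [← hfg z (by simpa [hz] using hs1.trans hρ1)]
      exact h2 z (by linarith))
  have hconj : ∀ z ∈ ball (0 : ℂ) 1, ‖g z + conj (f z)‖ = ‖w z‖ := by
    intro z hz
    rw [hfg z hz, ← Complex.norm_conj (g z + conj (f z)), map_add, Complex.conj_conj, add_comm]
  have bg1 : ∀ k, 1 ≤ k → ‖tc g k‖ ≤ 1 := by
    intro k hk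
    have := le_div_pow_of_forall_lt (X := ‖tc g k‖) (B := 1) (R := 1) one_pos k (fun s hs0 hs1 => by
      apply coef_bound hg hf hs0 hs1 _ k hk
      intro z hz
      rw [hconj z (by simpa [hz] using hs1)]
      exact h1 z (by linarith))
    simpa using this
  have bg2 : ∀ k, 1 ≤ k → ‖tc g k‖ ≤ δ / ρ ^ k := by
    intro k hk
    apply le_div_pow_of_forall_lt hρ k (fun s hs0 hs1 => by
      apply coef_bound hg hf hs0 (hs1.trans hρ1) _ k hk
      intro z hz
      rw [hconj z (by simpa [hz] using hs1.trans hρ1)]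
      exact h2 z (by linarith))
  have h00 : w 0 = tc f 0 + conj (tc g 0) := by
    rw [hfg 0 (by simp)]
    simp [tc]
  set cf : ℕ → ℝ := fun k => if k = 0 then ‖w 0‖ else ‖tc f k‖ with hcf
  set cg : ℕ → ℝ := fun k => if k = 0 then 0 else ‖tc g k‖ with hcg
  have sf := sum_est' hρ hρr hr hδ0 hδ1 cf (fun k => by
      simp only [hcf]; split_ifs <;> exact norm_nonneg _)
    (fun k => by
      simp only [hcf]; split_ifs with hk
      · exact h1 0 (by simp)
      · exact bf1 k (by omega))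
    (fun k => by
      simp only [hcf]; split_ifs with hk
      · subst hk; simpa using h2 0 (by simpa using hρ)
      · exact bf2 k (by omega))
  have sg := sum_est' hρ hρr hr hδ0 hδ1 cg (fun k => by
      simp only [hcg]; split_ifs
      · exact le_rfl
      · exact norm_nonneg _)
    (fun k => by
      simp only [hcg]; split_ifs with hk
      · exact zero_le_one
      · exact bg1 k (by omega))
    (fun k => by
      simp only [hcg]; split_ifs with hk
      · positivity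
      · exact bg2 k (by omega))
  have hz1 : z ∈ ball (0 : ℂ) 1 := by simpa using hz.trans hr
  have Sf := Complex.hasSum_taylorSeries_on_ball hf hz1
  have Sg := Complex.hasSum_taylorSeries_on_ball hg hz1
  have Sg' : HasSum (fun n : ℕ => conj ((n.factorial : ℂ)⁻¹ • (z - 0) ^ n • iteratedDeriv n g 0))
      (conj (g z)) := by
    have := (Complex.conjCLE : ℂ →L[ℝ] ℂ).hasSum Sg
    simpa [Function.comp_def] using this
  have S := Sf.add Sg'
  rw [← hfg z hz1] at S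
  rw [← S.tsum_eq]
  have hr0 : 0 < r := hρ.trans hρr
  have key : ‖∑' k : ℕ, ((k.factorial : ℂ)⁻¹ • (z - 0) ^ k • iteratedDeriv k f 0 +
      conj ((k.factorial : ℂ)⁻¹ • (z - 0) ^ k • iteratedDeriv k g 0))‖ ≤
      (∑' k, cf k * r ^ k) + ∑' k, cg k * r ^ k := by
    apply tsum_of_norm_bounded (sf.1.hasSum.add sg.1.hasSum)
    intro k
    have e1 : (k.factorial : ℂ)⁻¹ • (z - 0) ^ k • iteratedDeriv k f 0 = tc f k * z ^ k := by
      simp only [tc, smul_eq_mul, sub_zero]; ring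
    have e2 : (k.factorial : ℂ)⁻¹ • (z - 0) ^ k • iteratedDeriv k g 0 = tc g k * z ^ k := by
      simp only [tc, smul_eq_mul, sub_zero]; ring
    rw [e1, e2]
    have hzk : ‖z‖ ^ k ≤ r ^ k := pow_le_pow_left₀ (norm_nonneg _) hz.le k
    rcases Nat.eq_zero_or_pos k with hk | hk
    · subst hk
      simp only [pow_zero, mul_one, hcf, hcg, if_true, zero_mul, add_zero]
      rw [h00]
    · simp only [hcf, hcg, hk.ne', if_false]
      calc ‖tc f k * z ^ k + conj (tc g k * z ^ k)‖ ≤ ‖tc f k * z ^ k‖ + ‖conj (tc g k * z ^ k)‖ :=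
            norm_add_le _ _
        _ = ‖tc f k‖ * ‖z‖ ^ k + ‖tc g k‖ * ‖z‖ ^ k := by
            rw [Complex.norm_conj, norm_mul, norm_mul, norm_pow]
        _ ≤ ‖tc f k‖ * r ^ k + ‖tc g k‖ * r ^ k := by gcongr
  calc _ ≤ (∑' k, cf k * r ^ k) + ∑' k, cg k * r ^ k := key
    _ ≤ _ := add_le_add sf.2 sg.2
    _ = _ := by ring

open Pointwise in
theorem supNorm_smul {n : ℕ} (v : EuclideanSpace ℝ (Fin n) → ℂ) (s c : ℝ) (hc : 0 ≤ c) :
    supNorm (c • v) s = c * supNorm v s := by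
  unfold supNorm
  have h1 : (fun x => ‖(c • v) x‖) '' ball 0 s = c • ((fun x => ‖v x‖) '' ball 0 s) := by
    ext t
    simp only [Set.mem_image, Set.mem_smul_set, Pi.smul_apply, norm_smul, Real.norm_eq_abs,
      abs_of_nonneg hc, smul_eq_mul]
    constructor
    · rintro ⟨x, hx, rfl⟩
      exact ⟨_, ⟨x, hx, rfl⟩, rfl⟩
    · rintro ⟨_, ⟨x, hx, rfl⟩, rfl⟩
      exact ⟨x, hx, rfl⟩
  rw [h1, Real.sSup_smul_of_nonneg hc, smul_eq_mul]

theorem bddAbove_smul {n : ℕ} (v : EuclideanSpace ℝ (Fin n) → ℂ) (s c B : ℝ) (hc : 0 ≤ c)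
    (h : ∀ x ∈ ball (0 : EuclideanSpace ℝ (Fin n)) s, ‖v x‖ ≤ B) :
    BddAbove ((fun x => ‖(c • v) x‖) '' ball 0 s) := by
  refine ⟨c * B, ?_⟩
  rintro _ ⟨x, hx, rfl⟩
  simp only [Pi.smul_apply, norm_smul, Real.norm_eq_abs, abs_of_nonneg hc]
  exact mul_le_mul_of_nonneg_left (h x hx) hc

theorem supNorm_le {n : ℕ} (v : EuclideanSpace ℝ (Fin n) → ℂ) {s B : ℝ} (hs : 0 < s)
    (h : ∀ x ∈ ball (0 : EuclideanSpace ℝ (Fin n)) s, ‖v x‖ ≤ B) : supNorm v s ≤ B := by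
  apply csSup_le
  · exact ⟨_, 0, mem_ball_self hs, rfl⟩
  · rintro _ ⟨x, hx, rfl⟩
    exact h x hx

theorem le_supNorm {n : ℕ} (v : EuclideanSpace ℝ (Fin n) → ℂ) {s B : ℝ}
    (h : ∀ x ∈ ball (0 : EuclideanSpace ℝ (Fin n)) s, ‖v x‖ ≤ B)
    {x : EuclideanSpace ℝ (Fin n)} (hx : x ∈ ball (0 : EuclideanSpace ℝ (Fin n)) s) :
    ‖v x‖ ≤ supNorm v s := by
  apply le_csSup
  · refine ⟨B, ?_⟩
    rintro _ ⟨y, hy, rfl⟩
    exact h y hy
  · exact ⟨x, hx, rfl⟩

/-- dimension two: the Hadamard exponent works with a finite constant -/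
theorem planar_finite (ρ r : ℝ) (hρ : 0 < ρ) (hρr : ρ < r) (hr : r < 1) :
    ∃ K : ℝ, ∀ u ∈ classH 2, supNorm u r ≤ K * supNorm u ρ ^ (Real.log r / Real.log ρ) := by
  refine ⟨2 * ((1 / r) * (1 / (1 - ρ / r) + 1 / (1 - r))), ?_⟩
  rintro u ⟨hu, hbdd, hone⟩
  set e : ℂ ≃ₗᵢ[ℝ] EuclideanSpace ℝ (Fin 2) := Complex.orthonormalBasisOneI.repr with he
  have hw : HarmonicOnNhd (u ∘ e) (ball 0 1) := by
    intro z hz
    apply harmonicAt_comp_isometry e
    apply hu
    simpa using hz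
  have hr0 : 0 < r := hρ.trans hρr
  have h1 : ∀ x ∈ ball (0 : EuclideanSpace ℝ (Fin 2)) 1, ‖u x‖ ≤ 1 := by
    intro x hx
    rw [← hone]
    exact le_csSup hbdd ⟨x, hx, rfl⟩
  have h2 : ∀ x ∈ ball (0 : EuclideanSpace ℝ (Fin 2)) ρ, ‖u x‖ ≤ supNorm u ρ := by
    intro x hx
    exact le_supNorm u (fun y hy => h1 y (ball_subset_ball (hρr.trans hr).le hy)) hx
  have hδ1 : supNorm u ρ ≤ 1 :=
    supNorm_le u hρ (fun y hy => h1 y (ball_subset_ball (hρr.trans hr).le hy))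
  have hδ0 : 0 ≤ supNorm u ρ := (norm_nonneg _).trans (h2 0 (mem_ball_self hρ))
  apply supNorm_le u hr0
  intro x hx
  have h3 := planar_bound hw hρ hρr hr hδ0 hδ1 (fun z hz => h1 (e z) (by simpa using hz))
    (fun z hz => h2 (e z) (by simpa using hz)) (e.symm x) (by simpa using hx)
  simpa using h3

/-- dimension at least three: no finite constant for the Hadamard exponent -/
theorem no_finite {n : ℕ} (hn : 3 ≤ n) (ρ r : ℝ) (hρ : 0 < ρ) (hρr : ρ < r) (hr : r < 1) :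
    ¬ ∃ K : ℝ, ∀ u ∈ classH n, supNorm u r ≤ K * supNorm u ρ ^ (Real.log r / Real.log ρ) := by
  rintro ⟨K, hK⟩
  have hr0 : 0 < r := hρ.trans hρr
  have hρ1 : ρ < 1 := hρr.trans hr
  set β := Real.log r / Real.log ρ with hβdef
  have hβ : ρ ^ β = r := by
    rw [hβdef, Real.rpow_def_of_pos hρ, mul_div_cancel₀, Real.exp_log hr0]
    exact (Real.log_neg hρ hρ1).ne
  have hβ0 : 0 < β := div_pos_of_neg_of_neg (Real.log_neg hr0 hr) (Real.log_neg hρ hρ1)
  have hβ1 : β < 1 := by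
    rw [hβdef, div_lt_one_of_neg (Real.log_neg hρ hρ1)]
    exact Real.log_lt_log hρ hρr
  set i0 : Fin n := ⟨0, by omega⟩ with hi0
  set i1 : Fin n := ⟨1, by omega⟩ with hi1
  set i2 : Fin n := ⟨2, by omega⟩ with hi2
  have h01 : i0 ≠ i1 := by simp [hi0, hi1]
  have h02 : i0 ≠ i2 := by simp [hi0, hi2]
  have h12 : i1 ≠ i2 := by simp [hi1, hi2]
  -- the key inequality for each M
  have main : ∀ M : ℕ, 0 < M → (M : ℝ) ^ (1 - β) * (1 - r ^ 2) ≤ 50 * K := by
    intro M hM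
    have hMr : (0 : ℝ) < M := by exact_mod_cast hM
    set v := vM i0 i1 i2 M with hv
    have b1 : ∀ x ∈ ball (0 : EuclideanSpace ℝ (Fin n)) 1, ‖v x‖ ≤ 25 := by
      intro x hx
      exact norm_vM_le i0 i1 i2 h01 h02 h12 M hM x (by simpa using (mem_ball_zero_iff.mp hx).le)
    have b2 : ∀ x ∈ ball (0 : EuclideanSpace ℝ (Fin n)) ρ, ‖v x‖ ≤ 2 * M * ρ ^ (2 * M ^ 2) := by
      intro x hx
      exact norm_vM_le_pow i0 i1 i2 h01 h02 h12 M ρ hρ1.le x (mem_ball_zero_iff.mp hx).le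
    have br : ∀ x ∈ ball (0 : EuclideanSpace ℝ (Fin n)) r, ‖v x‖ ≤ 25 := fun x hx =>
      b1 x (ball_subset_ball hr.le hx)
    -- value on the axis
    have hax : ∀ s : ℝ, 0 ≤ s → s < 1 →
        ‖v (s • EuclideanSpace.single i0 (1 : ℝ))‖ = M * (s ^ (2 * M ^ 2) * (1 - s ^ 2)) := by
      intro s hs0 hs1
      rw [hv, vM_axis i0 i1 i2 h01 h02 M s]
      have : (M : ℂ) * ((s : ℂ) ^ (2 * M ^ 2) * (1 - (s : ℂ) ^ 2)) =
          ((M * (s ^ (2 * M ^ 2) * (1 - s ^ 2)) : ℝ) : ℂ) := by push_cast; ring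
      rw [this, Complex.norm_real, Real.norm_eq_abs, abs_of_nonneg]
      have h1 : 0 ≤ 1 - s ^ 2 := by nlinarith
      positivity
    have hnorm1 : ∀ s : ℝ, 0 ≤ s → ‖s • (EuclideanSpace.single i0 (1 : ℝ) : EuclideanSpace ℝ (Fin n))‖ = s := by
      intro s hs
      rw [norm_smul]
      simp [abs_of_nonneg hs]
    set A := supNorm v 1 with hA
    have hA25 : A ≤ 25 := supNorm_le v one_pos b1
    have hApos : 0 < A := by
      have h1 := le_supNorm v b1 (x := (1 / 2 : ℝ) • EuclideanSpace.single i0 (1 : ℝ))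
        (by rw [mem_ball_zero_iff, hnorm1 _ (by norm_num)]; norm_num)
      rw [hax (1 / 2) (by norm_num) (by norm_num)] at h1
      refine lt_of_lt_of_le ?_ h1
      have : (0 : ℝ) < 1 - (1 / 2 : ℝ) ^ 2 := by norm_num
      positivity
    -- lower bound at r
    have hlow : M * (r ^ (2 * M ^ 2) * (1 - r ^ 2)) ≤ supNorm v r := by
      have ht : Filter.Tendsto (fun s : ℝ => M * (s ^ (2 * M ^ 2) * (1 - s ^ 2))) (𝓝[<] r)
          (𝓝 (M * (r ^ (2 * M ^ 2) * (1 - r ^ 2)))) := by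
        have : Continuous (fun s : ℝ => M * (s ^ (2 * M ^ 2) * (1 - s ^ 2))) := by fun_prop
        exact (this.tendsto r).mono_left nhdsWithin_le_nhds
      refine le_of_tendsto ht ?_
      filter_upwards [Ioo_mem_nhdsLT hr0] with s hs
      rw [← hax s hs.1.le (hs.2.trans hr)]
      apply le_supNorm v br
      rw [mem_ball_zero_iff, hnorm1 s hs.1.le]
      exact hs.2
    -- upper bound at ρ
    have hup : supNorm v ρ ≤ 2 * M * ρ ^ (2 * M ^ 2) := supNorm_le v hρ b2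
    have hup0 : 0 ≤ supNorm v ρ :=
      (norm_nonneg _).trans (le_supNorm v b2 (mem_ball_self hρ))
    -- normalised function
    have hu : (A⁻¹ • v) ∈ classH n := by
      refine ⟨?_, ?_, ?_⟩
      · exact HarmonicOnNhd.const_smul (fun x _ => vM_harmonic i0 i1 i2 h01 h02 h12 M x)
      · exact bddAbove_smul v 1 A⁻¹ 25 (inv_nonneg.mpr hApos.le) b1
      · rw [supNorm_smul v 1 A⁻¹ (inv_nonneg.mpr hApos.le), ← hA]
        exact inv_mul_cancel₀ hApos.ne'
    have hKu := hK _ hu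
    rw [supNorm_smul v r A⁻¹ (inv_nonneg.mpr hApos.le),
      supNorm_smul v ρ A⁻¹ (inv_nonneg.mpr hApos.le)] at hKu
    have hrpos : 0 < r ^ (2 * M ^ 2) := by positivity
    have h1r : 0 < 1 - r ^ 2 := by nlinarith
    have hlow' : 0 < A⁻¹ * (M * (r ^ (2 * M ^ 2) * (1 - r ^ 2))) := by positivity
    have hlow'' : A⁻¹ * (M * (r ^ (2 * M ^ 2) * (1 - r ^ 2))) ≤
        K * (A⁻¹ * supNorm v ρ) ^ β := by
      refine le_trans ?_ hKu
      gcongr
    have hKpos : 0 < K := by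
      by_contra hcon
      push Not at hcon
      have : K * (A⁻¹ * supNorm v ρ) ^ β ≤ 0 :=
        mul_nonpos_of_nonpos_of_nonneg hcon (Real.rpow_nonneg (by positivity) _)
      linarith
    have hpow : (ρ ^ (2 * M ^ 2)) ^ β = r ^ (2 * M ^ 2) := by
      rw [← Real.rpow_natCast, ← Real.rpow_mul hρ.le, mul_comm, Real.rpow_mul hρ.le, hβ,
        Real.rpow_natCast]
    have h3 : (A⁻¹ * supNorm v ρ) ^ β ≤ A⁻¹ ^ β * (2 : ℝ) ^ β * (M : ℝ) ^ β * r ^ (2 * M ^ 2) := by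
      calc (A⁻¹ * supNorm v ρ) ^ β ≤ (A⁻¹ * (2 * M * ρ ^ (2 * M ^ 2))) ^ β := by
            apply Real.rpow_le_rpow (by positivity) _ hβ0.le
            gcongr
        _ = A⁻¹ ^ β * (2 : ℝ) ^ β * (M : ℝ) ^ β * r ^ (2 * M ^ 2) := by
            rw [Real.mul_rpow (by positivity) (by positivity),
              Real.mul_rpow (by positivity) (by positivity),
              Real.mul_rpow (by positivity) (by positivity), hpow]
            ring
    have h4 : A⁻¹ * (M * (r ^ (2 * M ^ 2) * (1 - r ^ 2))) ≤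
        K * (A⁻¹ ^ β * (2 : ℝ) ^ β * (M : ℝ) ^ β * r ^ (2 * M ^ 2)) :=
      hlow''.trans (mul_le_mul_of_nonneg_left h3 hKpos.le)
    -- divide out
    have h5 : M * (1 - r ^ 2) ≤ K * (A ^ (1 - β) * (2 : ℝ) ^ β * (M : ℝ) ^ β) := by
      have hAβ : A * A⁻¹ ^ β = A ^ (1 - β) := by
        rw [Real.inv_rpow hApos.le, Real.rpow_sub hApos, Real.rpow_one]
        rfl
      have h6 : M * (1 - r ^ 2) * (A⁻¹ * r ^ (2 * M ^ 2)) ≤
          (K * (A⁻¹ ^ β * (2 : ℝ) ^ β * (M : ℝ) ^ β) * A) * (A⁻¹ * r ^ (2 * M ^ 2)) := by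
        calc M * (1 - r ^ 2) * (A⁻¹ * r ^ (2 * M ^ 2)) =
            A⁻¹ * (M * (r ^ (2 * M ^ 2) * (1 - r ^ 2))) := by ring
          _ ≤ _ := h4
          _ = (K * (A⁻¹ ^ β * (2 : ℝ) ^ β * (M : ℝ) ^ β) * A) * (A⁻¹ * r ^ (2 * M ^ 2)) := by
            field_simp
      have h7 := le_of_mul_le_mul_right h6 (by positivity)
      calc M * (1 - r ^ 2) ≤ K * (A⁻¹ ^ β * (2 : ℝ) ^ β * (M : ℝ) ^ β) * A := h7
        _ = K * ((A * A⁻¹ ^ β) * (2 : ℝ) ^ β * (M : ℝ) ^ β) := by ring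
        _ = _ := by rw [hAβ]
    have h8 : A ^ (1 - β) ≤ 25 := by
      calc A ^ (1 - β) ≤ (25 : ℝ) ^ (1 - β) := Real.rpow_le_rpow hApos.le hA25 (by linarith)
        _ ≤ (25 : ℝ) ^ (1 : ℝ) := Real.rpow_le_rpow_of_exponent_le (by norm_num) (by linarith)
        _ = 25 := Real.rpow_one _
    have h9 : (2 : ℝ) ^ β ≤ 2 := by
      calc (2 : ℝ) ^ β ≤ (2 : ℝ) ^ (1 : ℝ) :=
            Real.rpow_le_rpow_of_exponent_le (by norm_num) (by linarith)
        _ = 2 := Real.rpow_one _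
    have hMβ : 0 < (M : ℝ) ^ β := Real.rpow_pos_of_pos hMr _
    have h10 : M * (1 - r ^ 2) ≤ (50 * K) * (M : ℝ) ^ β := by
      calc M * (1 - r ^ 2) ≤ K * (A ^ (1 - β) * (2 : ℝ) ^ β * (M : ℝ) ^ β) := h5
        _ ≤ K * (25 * 2 * (M : ℝ) ^ β) := by
            have : 0 < A ^ (1 - β) := Real.rpow_pos_of_pos hApos _
            gcongr
        _ = (50 * K) * (M : ℝ) ^ β := by ring
    have h11 : (M : ℝ) ^ (1 - β) * (M : ℝ) ^ β = M := by
      rw [← Real.rpow_add hMr]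
      simp
    have h12' : ((M : ℝ) ^ (1 - β) * (1 - r ^ 2)) * (M : ℝ) ^ β ≤ (50 * K) * (M : ℝ) ^ β := by
      calc ((M : ℝ) ^ (1 - β) * (1 - r ^ 2)) * (M : ℝ) ^ β =
          ((M : ℝ) ^ (1 - β) * (M : ℝ) ^ β) * (1 - r ^ 2) := by ring
        _ = M * (1 - r ^ 2) := by rw [h11]
        _ ≤ _ := h10
    exact le_of_mul_le_mul_right h12' hMβ
  -- contradiction as M → ∞
  have h1r : 0 < 1 - r ^ 2 := by nlinarith
  have ht : Filter.Tendsto (fun M : ℕ => (M : ℝ) ^ (1 - β)) Filter.atTop Filter.atTop :=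
    (tendsto_rpow_atTop (by linarith)).comp tendsto_natCast_atTop_atTop
  have hev := (ht.eventually_gt_atTop (50 * K / (1 - r ^ 2))).and (Filter.eventually_gt_atTop 0)
  obtain ⟨M, hM1, hM2⟩ := hev.exists
  have h2 := main M hM2
  rw [div_lt_iff₀ h1r] at hM1
  linarith

/-- **Dichotomy for the Hadamard exponent.**  For `n ≥ 2` and `0 < ρ < r < 1`, the three-balls
inequality with the Hadamard exponent `β = log r / log ρ` holds with some finite constant `K`
on the class `H` of harmonic functions of supremum norm one if and only if `n = 2`. -/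
theorem result (n : ℕ) (hn : 2 ≤ n) (ρ r : ℝ) (hρ : 0 < ρ) (hρr : ρ < r) (hr : r < 1) :
    (∃ K : ℝ, ∀ u ∈ classH n, supNorm u r ≤ K * supNorm u ρ ^ (Real.log r / Real.log ρ)) ↔
      n = 2 := by
  constructor
  · intro h
    by_contra hne
    exact no_finite (by omega) ρ r hρ hρr hr h
  · rintro rfl
    exact planar_finite ρ r hρ hρr hr

end Pool.Agent.Results.MP_1096cc_an.HadamardDichotomy
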